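import Pool.Agent.helper53.PDS8

set_option autoImplicit false

namespace Pool.Agent.Results.MP_ba8304_co.SevenConditions

/-- Necessary conditions on the order for `7` to be an extraneous multiplier of a planar
difference set. -/
theorem result {G : Type*} [AddCommGroup G] [Fintype G] [DecidableEq G] (n : ℕ) (D : Finset G)
    (hn : 2 ≤ n) (hG : Fintype.card G = n ^ 2 + n + 1) (hD : D.card = n + 1)
    (hdiff : ∀ x : G, x ≠ 0 → ∃! p : G × G, p.1 ∈ D ∧ p.2 ∈ D ∧ p.1 - p.2 = x)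
    (hcop : Nat.Coprime 7 (Fintype.card G))
    (hmult : ∃ g : G, D.image (fun x => (7 : ℕ) • x) = D.image (fun x => x + g))
    (h7 : ¬ 7 ∣ n) :
    ∃ m j : ℕ, n = m ^ (2 ^ j) ∧ ¬ IsSquare m ∧
      (m % 28 = 1 ∨ m % 84 = 73 ∨ m % 84 = 83) ∧
      Nat.Coprime m (2 * 3 * 5 * 13 * 19 * 43 * 97 * 337 * 1201 * 2801) ∧
      (m % 4 = 1 → ∀ p : ℕ, p.Prime → p ∣ m → p % 4 = 1) := by
  obtain ⟨m, j, h1, _, h2, _, h3, h4, h5, _⟩ :=
    Pool.Agent.helper53.PDS.main n G D ⟨hG, hD, hdiff⟩ hn hcop hmult h7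
  exact ⟨m, j, h1, h2, h3, h4, h5⟩

end Pool.Agent.Results.MP_ba8304_co.SevenConditions
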